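import Mathlib
import Pool.Agent.MP_98010f_co.Geometry

/-!
A finite real linear hyperplane arrangement with isometric chambers is a Coxeter arrangement.
-/

namespace Pool.Agent.Results.MP_98010f_co.Coxeter

open Pool.Agent.MP_98010f_co
open scoped RealInnerProductSpace Classical

/-- A linear hyperplane of `ℝ^n`: a subspace of dimension `n - 1`. -/
def IsHyperplane {n : ℕ} (H : Submodule ℝ (EuclideanSpace ℝ (Fin n))) : Prop :=
  Module.finrank ℝ H + 1 = n

/-- A chamber: the closure of a connected component of the complement of the hyperplanes. -/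
def IsChamber {n : ℕ} (A : Finset (Submodule ℝ (EuclideanSpace ℝ (Fin n))))
    (C : Set (EuclideanSpace ℝ (Fin n))) : Prop :=
  ∃ x, x ∈ (⋃ H ∈ A, (H : Set (EuclideanSpace ℝ (Fin n))))ᶜ ∧
    C = closure (connectedComponentIn (⋃ H ∈ A, (H : Set (EuclideanSpace ℝ (Fin n))))ᶜ x)

/-- Any two chambers are mapped onto each other by an isometry of Euclidean space. -/
def HasIsometricChambers {n : ℕ} (A : Finset (Submodule ℝ (EuclideanSpace ℝ (Fin n)))) : Prop :=
  ∀ C C', IsChamber A C → IsChamber A C' →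
    ∃ f : EuclideanSpace ℝ (Fin n) ≃ᵢ EuclideanSpace ℝ (Fin n), f '' C = C'

/-- `A` is the set of all reflecting hyperplanes of a finite subgroup of `O(n)` generated by a
set `S` of orthogonal reflections in hyperplanes. -/
def IsCoxeterArrangement {n : ℕ} (A : Finset (Submodule ℝ (EuclideanSpace ℝ (Fin n)))) : Prop :=
  ∃ S : Set (EuclideanSpace ℝ (Fin n) ≃ₗᵢ[ℝ] EuclideanSpace ℝ (Fin n)),
    (∀ s ∈ S, ∃ H, IsHyperplane H ∧ s = H.reflection) ∧ Finite (Subgroup.closure S) ∧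
      ∀ H, H ∈ A ↔ IsHyperplane H ∧ H.reflection ∈ Subgroup.closure S

theorem result (n : ℕ) (A : Finset (Submodule ℝ (EuclideanSpace ℝ (Fin n))))
    (hA : ∀ H ∈ A, IsHyperplane H) (h : HasIsometricChambers A) : IsCoxeterArrangement A := by
  have hn : ∀ H : Submodule ℝ (EuclideanSpace ℝ (Fin n)), IsHyperplane H →
      ∃ u, ⟪u, u⟫ = 1 ∧ H = (ℝ ∙ u)ᗮ := fun H hH =>
    exists_normal (by rw [finrank_euclideanSpace_fin]; exact hH)
  choose! u hu1 hu2 using hn
  set Φ := A.biUnion (fun H => ({u H, -u H} : Finset (EuclideanSpace ℝ (Fin n)))) with hΦdef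
  have hmem : ∀ β, β ∈ Φ ↔ ⟪β, β⟫ = 1 ∧ (ℝ ∙ β)ᗮ ∈ A := by
    intro β
    simp only [hΦdef, Finset.mem_biUnion, Finset.mem_insert, Finset.mem_singleton]
    constructor
    · rintro ⟨H, hH, rfl | rfl⟩
      · exact ⟨hu1 H (hA H hH), hu2 H (hA H hH) ▸ hH⟩
      · refine ⟨by rw [inner_neg_neg]; exact hu1 H (hA H hH), ?_⟩
        rw [← Set.neg_singleton, Submodule.span_neg]
        exact hu2 H (hA H hH) ▸ hH
    · rintro ⟨h1, h2⟩
      exact ⟨_, h2, normal_unique (hu1 _ (hA _ h2)) h1 (hu2 _ (hA _ h2))⟩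
  have huΦ : ∀ H ∈ A, u H ∈ Φ := fun H hH =>
    (hmem _).2 ⟨hu1 H (hA H hH), hu2 H (hA H hH) ▸ hH⟩
  have hΦ : RS Φ := by
    refine ⟨fun β hβ => ((hmem β).1 hβ).1, fun β hβ => (hmem _).2 ⟨?_, ?_⟩⟩
    · rw [inner_neg_neg]; exact ((hmem β).1 hβ).1
    · rw [← Set.neg_singleton, Submodule.span_neg]; exact ((hmem β).1 hβ).2
  have hcompl : (⋃ H ∈ A, (H : Set (EuclideanSpace ℝ (Fin n))))ᶜ = {y | Reg Φ y} := by
    ext y
    simp only [Set.mem_compl_iff, Set.mem_iUnion, SetLike.mem_coe, not_exists, Set.mem_setOf_eq, Reg]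
    constructor
    · intro hy β hβ h0
      exact hy _ ((hmem β).1 hβ).2 (Submodule.mem_orthogonal_singleton_iff_inner_right.2 h0)
    · intro hy H hH hyH
      rw [hu2 H (hA H hH)] at hyH
      exact hy _ (huΦ H hH) (Submodule.mem_orthogonal_singleton_iff_inner_right.1 hyH)
  have hch : ∀ P, IsTope Φ P → IsChamber A (cone P) := by
    rintro P ⟨x, hx, rfl⟩
    refine ⟨x, by rw [hcompl]; exact hx, ?_⟩
    rw [hcompl, component_eq hΦ hx, closure_eq (x := x) (fun β hβ => (mem_pos.1 hβ).2)]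
  have hG : Good Φ := good_of_cones hΦ fun P Q hP hQ => by
    obtain ⟨f, hf⟩ := h _ _ (hch P hP) (hch Q hQ)
    exact exists_linear f hf
  obtain ⟨x, hx⟩ := exists_generic Φ (fun β hβ h0 => by
    have := hΦ.unit β hβ
    rw [h0] at this
    simp at this)
  have hP : IsTope Φ (pos Φ x) := ⟨x, hx, rfl⟩
  obtain ⟨g1, g2⟩ := group_facts hΦ hP (fun a ha β hβ => hG.rf_mem hP ha hβ)
    {s | ∃ H ∈ A, s = H.reflection} (by
      rintro s ⟨H, hH, rfl⟩
      refine ⟨u H, huΦ H hH, ?_⟩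
      congr 1
      exact hu2 H (hA H hH))
  refine ⟨{s | ∃ H ∈ A, s = H.reflection}, ?_, g1, fun H => ⟨fun hH => ⟨hA H hH,
    Subgroup.subset_closure ⟨H, hH, rfl⟩⟩, fun hH => ?_⟩⟩
  · rintro s ⟨H, hH, rfl⟩
    exact ⟨H, hA H hH, rfl⟩
  · have e := hu2 H hH.1
    have h1 : (ℝ ∙ u H)ᗮ.reflection = H.reflection := by
      congr 1
      exact e.symm
    rw [e]
    exact ((hmem _).1 (g2 (u H) (hu1 H hH.1) (h1 ▸ hH.2))).2

end Pool.Agent.Results.MP_98010f_co.Coxeter
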